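import Pool.Agent.TRI.F_T
import Pool.Agent.TRI.F_Main
import Pool.Agent.TRI.G_Conv

/-!
MP_7f8be5_lc: counting the triangulations of a planar point set (collinear points allowed) is
polynomial-time equivalent to counting the satisfying assignments of a CNF formula.

`tr S` is the number of maximal sets of pairwise non-crossing segments with end points in `S` and
without points of `S` in the relative interior. `ptSet l` is the set of points of a list of pairs
of rational coordinates, each given by a sign, a numerator and a denominator in binary.
`sharpSat` is the number of satisfying assignments of a CNF formula. `InFP B` is computability by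
a deterministic multitape Turing machine in polynomial time with the oracle `B`. `word` encodes
lists, pairs, booleans and (unary) natural numbers as binary words.
-/

namespace Pool.Agent.Results.MP_7f8be5_lc.SharpPHard

open Pool.Agent.TRI Pool.Agent.LibComplexity

/-- First part: #SAT is computable in polynomial time with the oracle for the bits of `tr`.
Second part: `tr` is, by a polynomial-time map, the number of satisfying assignments of a
formula. Third part: relative to every oracle, `tr` is computable in polynomial time iff #SAT
is. -/
theorem result :
    (∃ f : List Bool → List Bool, InFP trOracle f ∧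
      ∀ φ : Cnf, f (word φ) = word (Nat.bits (sharpSat φ))) ∧
    (∃ g : List Bool → List Bool, InFP ∅ g ∧
      ∀ l : List (Coord × Coord), ∃ φ : Cnf, g (word l) = word φ ∧ sharpSat φ = tr (ptSet l)) ∧
    ∀ B : Set (List Bool),
      (∃ f : List Bool → List Bool, InFP B f ∧
        ∀ l : List (Coord × Coord), f (word l) = word (Nat.bits (tr (ptSet l)))) ↔
      ∃ f : List Bool → List Bool, InFP B f ∧
        ∀ φ : Cnf, f (word φ) = word (Nat.bits (sharpSat φ)) := by
  refine ⟨Conv.sharpSatInFP_of_trInFP trInFP_trOracle,
    ⟨fun w => word (Conv.psi (read (List Conv.CP) w)), ?_, fun l => ?_⟩,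
    fun B => ⟨Conv.sharpSatInFP_of_trInFP, Conv.trInFP_of_sharpSatInFP⟩⟩
  · rw [inFP_iff]
    exact PTf.word (Conv.ptf_psi (PTf.read PTf.id))
  · refine ⟨Conv.psi l, ?_, Conv.sharpSat_psi l⟩
    have h := read_word (α := List Conv.CP) l []
    rw [List.append_nil] at h
    simp only [h]

end Pool.Agent.Results.MP_7f8be5_lc.SharpPHard
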